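import Pool.Agent.Helper30.GS11

/-!
# A periodic group with locally finite involution centralizers and no locally finite radical

There is a finitely generated infinite 2-group in which the centralizer of every nontrivial element
is locally finite and every nontrivial normal subgroup has finite index. Its only locally finite
normal subgroup is the trivial one.
-/

set_option autoImplicit false

namespace Pool.Agent.Results.MP_a4a6a3_al.TwoGroupExample

/-- The subgroup `K` is locally finite: every finitely generated subgroup of the ambient group that
is contained in `K` is finite. -/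
def LocallyFinite {G : Type} [Group G] (K : Subgroup G) : Prop :=
  ∀ L : Subgroup G, L ≤ K → L.FG → Finite L

/-- There is a finitely generated infinite group, all of whose elements have order a power of two,
that has an involution, in which the centralizer of every nontrivial element is locally finite,
every nontrivial normal subgroup has finite index, and the only locally finite normal subgroup is
the trivial one. -/
theorem result :
    ∃ (G : Type) (_ : Group G), Group.FG G ∧ Infinite G ∧
      (∀ g : G, ∃ k : ℕ, orderOf g = 2 ^ k) ∧
      (∃ t : G, orderOf t = 2) ∧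
      (∀ x : G, x ≠ 1 → LocallyFinite (Subgroup.centralizer ({x} : Set G))) ∧
      (∀ N : Subgroup G, N.Normal → N ≠ ⊥ → N.FiniteIndex) ∧
      ∀ N : Subgroup G, N.Normal → LocallyFinite N → N = ⊥ := by
  obtain ⟨Γ, hΓ, hJI⟩ := Pool.Agent.Helper30.exists_JI
  have hinf := hJI.inf
  have hfg := hJI.fg
  refine ⟨Γ, hΓ, hfg, hinf, ?_, hJI.exists_involution, ?_, hJI.normal, ?_⟩
  · intro g
    obtain ⟨b, hb⟩ := hJI.tors g
    obtain ⟨k, _, hk⟩ := (Nat.dvd_prime_pow Nat.prime_two).1 (orderOf_dvd_of_pow_eq_one hb)
    exact ⟨k, hk⟩
  · intro x hx L hL hLfg
    obtain ⟨S, hS⟩ := hLfg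
    rcases hJI.dich S with h | h
    · rw [hS] at h
      exact h
    · exfalso
      rw [hS] at h
      exact hJI.centralizer hx (Subgroup.finiteIndex_of_le hL)
  · intro N hN hlf
    by_contra hne
    have hfi := hJI.normal N hN hne
    have h1 : Group.FG N := inferInstance
    have h2 : Finite N := hlf N le_rfl ((Group.fg_iff_subgroup_fg _).1 h1)
    have h3 : Finite (Γ ⧸ N) := inferInstance
    have h4 : Finite Γ :=
      Finite.of_equiv _ (Subgroup.groupEquivQuotientProdSubgroup (s := N)).symm
    exact not_finite Γ

end Pool.Agent.Results.MP_a4a6a3_al.TwoGroupExample
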